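import Pool.Agent.V11209.Carl.Core

set_option autoImplicit false

namespace V11209.Carl

open Matrix Module MvPolynomial

variable {k : Type} [Field k] {d : ℕ}

/-- the ideal of squares -/
noncomputable def sqI (k : Type) [Field k] (d : ℕ) : Ideal (MvPolynomial (Fin d) k) :=
  Ideal.span (Set.range (fun i : Fin d => (MvPolynomial.X i : MvPolynomial (Fin d) k) ^ 2))

lemma mem_sqI_iff (p : MvPolynomial (Fin d) k) :
    p ∈ sqI k d ↔ ∀ a ∈ p.support, ∃ i, 2 ≤ a i := by
  have h : (Set.range (fun i : Fin d => (MvPolynomial.X i : MvPolynomial (Fin d) k) ^ 2)) =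
      (fun s => monomial s (1 : k)) '' (Set.range fun i : Fin d => Finsupp.single i 2) := by
    ext q
    simp [MvPolynomial.X_pow_eq_monomial]
  rw [sqI, h, mem_ideal_span_monomial_image]
  constructor
  · intro hp a ha
    obtain ⟨s, ⟨i, rfl⟩, hs⟩ := hp a ha
    refine ⟨i, ?_⟩
    have := hs i
    simpa using this
  · intro hp a ha
    obtain ⟨i, hi⟩ := hp a ha
    refine ⟨Finsupp.single i 2, ⟨i, rfl⟩, ?_⟩
    rw [Finsupp.single_le_iff]
    exact hi

lemma pderiv_mem [CharP k 2] (i : Fin d) {p : MvPolynomial (Fin d) k} (hp : p ∈ sqI k d) :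
    pderiv i p ∈ sqI k d := by
  induction hp using Submodule.span_induction with
  | mem x h =>
    obtain ⟨j, rfl⟩ := h
    have h2 : (2 : MvPolynomial (Fin d) k) = 0 := CharTwo.two_eq_zero
    simp only [Derivation.leibniz_pow, pderiv_X]
    simp [h2]
  | zero => simp
  | add x y hx hy ihx ihy => rw [map_add]; exact (sqI k d).add_mem ihx ihy
  | smul a x hx ih =>
    rw [smul_eq_mul, Derivation.leibniz, smul_eq_mul, smul_eq_mul]
    exact (sqI k d).add_mem ((sqI k d).mul_mem_left _ ih) (by
      exact (sqI k d).mul_mem_right _ hx)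

/-- `E i p = p + X i ∂_i p`, which kills the monomials of odd degree in `X i` -/
noncomputable def E (i : Fin d) (p : MvPolynomial (Fin d) k) : MvPolynomial (Fin d) k :=
  p + X i * pderiv i p

lemma E_monomial (i : Fin d) (a : Fin d →₀ ℕ) (c : k) :
    E i (monomial a c) = (1 + a i) • monomial a c := by
  rw [E, X_mul_pderiv_monomial, add_smul, one_smul]

lemma E_add (i : Fin d) (p q : MvPolynomial (Fin d) k) : E i (p + q) = E i p + E i q := by
  simp only [E, map_add]; ring

lemma E_nsmul (i : Fin d) (m : ℕ) (p : MvPolynomial (Fin d) k) : E i (m • p) = m • E i p := by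
  rw [E, E, map_nsmul, mul_smul_comm, smul_add]

/-- iterate `E` along a list -/
noncomputable def EE (l : List (Fin d)) (p : MvPolynomial (Fin d) k) : MvPolynomial (Fin d) k :=
  l.foldr E p

lemma EE_nil (p : MvPolynomial (Fin d) k) : EE [] p = p := by simp only [EE, List.foldr_nil]

lemma EE_cons (i : Fin d) (l : List (Fin d)) (p : MvPolynomial (Fin d) k) :
    EE (i :: l) p = E i (EE l p) := by simp only [EE, List.foldr_cons]

lemma EE_add (l : List (Fin d)) (p q : MvPolynomial (Fin d) k) :
    EE l (p + q) = EE l p + EE l q := by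
  induction l with
  | nil => rfl
  | cons i l ih => simp only [EE, List.foldr_cons] at ih ⊢; rw [ih, E_add]

lemma EE_monomial (l : List (Fin d)) (a : Fin d →₀ ℕ) (c : k) :
    EE l (monomial a c) = (l.map fun i => 1 + a i).prod • monomial a c := by
  induction l with
  | nil => simp [EE]
  | cons i l ih =>
    simp only [EE, List.foldr_cons] at ih ⊢
    rw [ih, E_nsmul, E_monomial, List.map_cons, List.prod_cons, smul_smul, mul_comm]

lemma EE_univ [CharP k 2] (p : MvPolynomial (Fin d) k) :
    EE (List.finRange d) p - C (constantCoeff p) ∈ sqI k d := by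
  induction p using MvPolynomial.induction_on' with
  | monomial a c =>
    rw [EE_monomial]
    by_cases ha : a = 0
    · subst ha
      simp
    · have hc : constantCoeff (monomial a c : MvPolynomial (Fin d) k) = 0 := by
        rw [constantCoeff_monomial, if_neg ha]
      rw [hc, C_0, sub_zero]
      obtain ⟨i, hi⟩ : ∃ i, a i ≠ 0 := by
        by_contra h
        push Not at h
        exact ha (Finsupp.ext h)
      by_cases h2 : 2 ≤ a i
      · rw [nsmul_eq_mul]
        refine (sqI k d).mul_mem_left _ ?_
        rw [mem_sqI_iff]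
        intro b hb
        have := MvPolynomial.support_monomial_subset hb
        rw [Finset.mem_singleton] at this
        exact ⟨i, this ▸ h2⟩
      · have h1 : a i = 1 := by omega
        have : (2 : ℕ) ∣ (List.map (fun i => 1 + a i) (List.finRange d)).prod := by
          apply List.dvd_prod
          rw [List.mem_map]
          exact ⟨i, List.mem_finRange i, by rw [h1]⟩
        obtain ⟨m, hm⟩ := this
        have h2 : (2 : MvPolynomial (Fin d) k) = 0 := CharTwo.two_eq_zero
        rw [hm, nsmul_eq_mul, Nat.cast_mul]
        simp [h2]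
  | add p q hp hq =>
    have : EE (List.finRange d) (p + q) - C (constantCoeff (p + q)) =
        (EE (List.finRange d) p - C (constantCoeff p)) +
        (EE (List.finRange d) q - C (constantCoeff q)) := by
      rw [EE_add, map_add, C_add]; ring
    rw [this]
    exact (sqI k d).add_mem hp hq

/-- the squarefree coefficients -/
noncomputable def sqc (k : Type) [Field k] (d : ℕ) :
    MvPolynomial (Fin d) k →ₗ[k] (Finset (Fin d) → k) where
  toFun p S := coeff (Finsupp.indicator S fun _ _ => 1) p
  map_add' p q := by ext S; simp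
  map_smul' c p := by ext S; simp

lemma sqc_ker : LinearMap.ker (sqc k d) = (sqI k d).restrictScalars k := by
  ext p
  rw [LinearMap.mem_ker, Submodule.restrictScalars_mem, mem_sqI_iff]
  constructor
  · intro h a ha
    by_contra hcon
    push Not at hcon
    have : a = Finsupp.indicator a.support fun _ _ => 1 := by
      ext i
      rw [Finsupp.indicator_apply]
      split_ifs with hi
      · have := hcon i
        rw [Finsupp.mem_support_iff] at hi
        omega
      · rwa [Finsupp.notMem_support_iff] at hi
    have h2 := congrFun h a.support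
    change coeff (Finsupp.indicator a.support fun _ _ => 1) p = 0 at h2
    rw [← this] at h2
    exact (mem_support_iff.mp ha) h2
  · intro h
    funext S
    change coeff (Finsupp.indicator S fun _ _ => 1) p = 0
    by_contra hcon
    obtain ⟨i, hi⟩ := h _ (mem_support_iff.mpr hcon)
    rw [Finsupp.indicator_apply] at hi
    split_ifs at hi <;> omega

lemma sqc_surj : Function.Surjective (sqc k d) := by
  intro c
  refine ⟨∑ S : Finset (Fin d), monomial (Finsupp.indicator S fun _ _ => 1) (c S), ?_⟩
  funext S
  change coeff (Finsupp.indicator S fun _ _ => 1) _ = c S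
  rw [coeff_sum, Finset.sum_eq_single S]
  · simp
  · intro T _ hT
    rw [coeff_monomial, if_neg]
    intro h
    apply hT
    ext i
    have := DFunLike.congr_fun h i
    rw [Finsupp.indicator_apply, Finsupp.indicator_apply] at this
    by_cases h1 : i ∈ T <;> by_cases h2 : i ∈ S <;> simp_all
  · intro h; exact absurd (Finset.mem_univ S) h

/-- the quotient has dimension `2^d` -/
noncomputable def quotEquiv : (MvPolynomial (Fin d) k ⧸ sqI k d) ≃ₗ[k] (Finset (Fin d) → k) :=
  (Submodule.Quotient.restrictScalarsEquiv k (sqI k d)).symm ≪≫ₗ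
    (Submodule.quotEquivOfEq _ _ sqc_ker.symm) ≪≫ₗ
    (sqc k d).quotKerEquivOfSurjective sqc_surj

lemma finrank_quot : finrank k (MvPolynomial (Fin d) k ⧸ sqI k d) = 2 ^ d := by
  rw [LinearEquiv.finrank_eq quotEquiv, Module.finrank_fintype_fun_eq_card, Fintype.card_finset,
    Fintype.card_fin]

lemma finite_quot : FiniteDimensional k (MvPolynomial (Fin d) k ⧸ sqI k d) :=
  Module.Finite.equiv (quotEquiv (k := k) (d := d)).symm

section main

variable {n : ℕ} [CharP k 2]

/-- reduce a matrix -/
noncomputable def red (G : Matrix (Fin n) (Fin n) (MvPolynomial (Fin d) k)) :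
    Matrix (Fin n) (Fin n) (MvPolynomial (Fin d) k ⧸ sqI k d) :=
  G.map (Ideal.Quotient.mk (sqI k d))

lemma two_quot : (2 : MvPolynomial (Fin d) k ⧸ sqI k d) = 0 := by
  have h2 : (2 : MvPolynomial (Fin d) k) = 0 := CharTwo.two_eq_zero
  rw [← map_ofNat (Ideal.Quotient.mk (sqI k d)) 2, h2, map_zero]

lemma step (i : Fin d) (G : Matrix (Fin n) (Fin n) (MvPolynomial (Fin d) k))
    (hG : red G * red G = 0) :
    red (G.map (E i)) * red (G.map (E i)) = 0 ∧
    finrank k (LinearMap.ker (opL k (red (G.map (E i))))) =
      finrank k (LinearMap.ker (opL k (red G))) := by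
  set x : MvPolynomial (Fin d) k ⧸ sqI k d := Ideal.Quotient.mk (sqI k d) (X i) with hxdef
  have hx : x * x = 0 := by
    rw [hxdef, ← map_mul, Ideal.Quotient.eq_zero_iff_mem, ← pow_two]
    exact Ideal.subset_span ⟨i, rfl⟩
  have hE : red (G.map (E i)) = red G + x • red (G.map (pderiv i)) := by
    ext a b
    simp [red, E, hxdef]
  have hf : red (G.map (pderiv i)) * red G = red G * red (G.map (pderiv i)) := by
    have hsum : red (G.map (pderiv i)) * red G + red G * red (G.map (pderiv i)) = 0 := by
      ext a b
      have h0 : (∑ l, G a l * G l b) ∈ sqI k d := by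
        rw [← Ideal.Quotient.eq_zero_iff_mem, map_sum]
        have := congrFun (congrFun hG a) b
        simpa [red, Matrix.mul_apply] using this
      have h1 := pderiv_mem i h0
      rw [← Ideal.Quotient.eq_zero_iff_mem, map_sum, map_sum] at h1
      simp only [red, Matrix.add_apply, Matrix.mul_apply, Matrix.map_apply, Matrix.zero_apply]
      rw [← Finset.sum_add_distrib, ← h1]
      refine Finset.sum_congr rfl fun l _ => ?_
      rw [Derivation.leibniz, smul_eq_mul, smul_eq_mul, map_add, map_mul, map_mul]
      ring
    have h3 := add_self_mat (R := MvPolynomial (Fin d) k ⧸ sqI k d) two_quot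
      (red G * red (G.map (pderiv i)))
    exact add_right_cancel (hsum.trans h3.symm)
  rw [hE]
  exact ⟨sq_zero_step two_quot hx _ _ hG hf, finrank_ker_opL two_quot hx _ _ hf⟩

lemma steps (l : List (Fin d)) (G : Matrix (Fin n) (Fin n) (MvPolynomial (Fin d) k))
    (hG : red G * red G = 0) :
    red (G.map (EE l)) * red (G.map (EE l)) = 0 ∧
    finrank k (LinearMap.ker (opL k (red (G.map (EE l))))) =
      finrank k (LinearMap.ker (opL k (red G))) := by
  induction l with
  | nil =>
    have : G.map (EE ([] : List (Fin d))) = G :=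
      Matrix.ext fun a b => by rw [Matrix.map_apply, EE_nil]
    rw [this]
    exact ⟨hG, rfl⟩
  | cons i l ih =>
    have : G.map (EE (i :: l)) = (G.map (EE l)).map (E i) :=
      Matrix.ext fun a b => by rw [Matrix.map_apply, Matrix.map_apply, Matrix.map_apply, EE_cons]
    rw [this]
    obtain ⟨h1, h2⟩ := ih
    obtain ⟨h3, h4⟩ := step i (G.map (EE l)) h1
    exact ⟨h3, h4.trans h2⟩

/-- all minimal square-zero matrices have the same Tate kernel dimension -/
lemma ker_all (D : Matrix (Fin n) (Fin n) (MvPolynomial (Fin d) k ⧸ sqI k d)) (hD : D * D = 0)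
    (hnil : ∀ i j, IsNilpotent (D i j)) :
    finrank k (LinearMap.ker (opL k D)) =
      finrank k (LinearMap.ker (opL k
        (0 : Matrix (Fin n) (Fin n) (MvPolynomial (Fin d) k ⧸ sqI k d)))) := by
  choose G hG using fun i j => Ideal.Quotient.mk_surjective (D i j)
  have hred : red (Matrix.of G) = D := by
    ext i j
    exact hG i j
  have h := steps (List.finRange d) (Matrix.of G) (by rw [hred]; exact hD)
  have hzero : red ((Matrix.of G).map (EE (List.finRange d))) = 0 := by
    ext i j
    change Ideal.Quotient.mk (sqI k d) (EE (List.finRange d) (G i j)) = 0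
    rw [Ideal.Quotient.eq_zero_iff_mem]
    have hc : constantCoeff (G i j) = 0 := by
      obtain ⟨N, hN⟩ := hnil i j
      rw [← hG i j, ← map_pow, Ideal.Quotient.eq_zero_iff_mem, mem_sqI_iff] at hN
      have : constantCoeff (G i j ^ N) = 0 := by
        by_contra hne
        have h0 : (0 : Fin d →₀ ℕ) ∈ (G i j ^ N).support := by
          rw [MvPolynomial.mem_support_iff]
          exact hne
        obtain ⟨a, ha⟩ := hN 0 h0
        simp at ha
      rw [map_pow] at this
      exact eq_zero_of_pow_eq_zero this
    have := EE_univ (G i j)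
    rwa [hc, C_0, sub_zero] at this
  rw [hzero, hred] at h
  exact h.2.symm

/-- the main inequality on matrices -/
theorem main_matrix (D : Matrix (Fin n) (Fin n) (MvPolynomial (Fin d) k ⧸ sqI k d))
    (hD : D * D = 0) (deg : Fin n → ℕ) (hdeg : ∀ i j, D i j ≠ 0 → deg j = deg i + 1)
    (hnil : ∀ i j, IsNilpotent (D i j)) :
    2 ^ d * n + finrank k (LinearMap.range (opT k D)) ≤ finrank k (LinearMap.ker (opT k D)) := by
  have := finite_quot (k := k) (d := d)
  have h1 := smith (k := k) D hdeg
  have h2 := ker_all D hD hnil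
  have h3 := ker_opL_zero (k := k) (R := MvPolynomial (Fin d) k ⧸ sqI k d) (n := n) two_quot
  have h4 := LinearMap.finrank_range_add_finrank_ker (opT k D)
  have h5 := LinearMap.finrank_range_add_finrank_ker (opL k
        (0 : Matrix (Fin n) (Fin n) (MvPolynomial (Fin d) k ⧸ sqI k d)))
  rw [finrank_quot] at h3
  have : n * 2 ^ d = 2 ^ d * n := mul_comm _ _
  omega

end main

end V11209.Carl
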