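import Mathlib

set_option autoImplicit false

namespace V11209.Carl

open Matrix Module

variable {k R : Type} [Field k] [CommRing R] [Algebra k R] {n : ℕ}

/-- the differential of the tensor square on matrices: `X ↦ D X + X Dᵀ` -/
noncomputable def opT (k : Type) {R : Type} [Field k] [CommRing R] [Algebra k R] {n : ℕ}
    (D : Matrix (Fin n) (Fin n) R) :
    Matrix (Fin n) (Fin n) R →ₗ[k] Matrix (Fin n) (Fin n) R where
  toFun X := D * X + X * Dᵀ
  map_add' X Y := by rw [mul_add, add_mul]; abel
  map_smul' c X := by simp [mul_smul_comm, smul_mul_assoc, smul_add]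

/-- the Tate differential `X ↦ D X + X Dᵀ + X + Xᵀ` -/
noncomputable def opL (k : Type) {R : Type} [Field k] [CommRing R] [Algebra k R] {n : ℕ}
    (D : Matrix (Fin n) (Fin n) R) :
    Matrix (Fin n) (Fin n) R →ₗ[k] Matrix (Fin n) (Fin n) R where
  toFun X := D * X + X * Dᵀ + X + Xᵀ
  map_add' X Y := by rw [mul_add, add_mul, transpose_add]; abel
  map_smul' c X := by
    simp [mul_smul_comm, smul_mul_assoc, smul_add, transpose_smul]

@[simp] lemma opT_apply (D X : Matrix (Fin n) (Fin n) R) :
    opT k D X = D * X + X * Dᵀ := rfl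

@[simp] lemma opL_apply (D X : Matrix (Fin n) (Fin n) R) :
    opL k D X = D * X + X * Dᵀ + X + Xᵀ := rfl

/-- the involution `X ↦ X + x Xᵀ fᵀ` -/
noncomputable def opU (k : Type) {R : Type} [Field k] [CommRing R] [Algebra k R] {n : ℕ}
    (x : R) (f : Matrix (Fin n) (Fin n) R) :
    Matrix (Fin n) (Fin n) R →ₗ[k] Matrix (Fin n) (Fin n) R where
  toFun X := X + x • (Xᵀ * fᵀ)
  map_add' X Y := by rw [transpose_add, add_mul, smul_add]; abel
  map_smul' c X := by
    simp [smul_mul_assoc, smul_add, transpose_smul, smul_comm c x]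

@[simp] lemma opU_apply (x : R) (f X : Matrix (Fin n) (Fin n) R) :
    opU k x f X = X + x • (Xᵀ * fᵀ) := rfl

lemma add_self_mat (h2 : (2 : R) = 0) (M : Matrix (Fin n) (Fin n) R) : M + M = 0 := by
  ext i j
  have : M i j + M i j = 2 * M i j := by ring
  simp [this, h2]

lemma opU_opU (h2 : (2 : R) = 0) {x : R} (hx : x * x = 0) (f X : Matrix (Fin n) (Fin n) R) :
    opU k x f (opU k x f X) = X := by
  simp only [opU_apply, transpose_add, transpose_smul, transpose_mul, transpose_transpose,
    add_mul, smul_add, smul_mul_assoc, smul_smul, hx, zero_smul, add_zero]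
  rw [add_assoc, add_self_mat h2, add_zero]

lemma opL_opU (h2 : (2 : R) = 0) {x : R} (hx : x * x = 0) (D f X : Matrix (Fin n) (Fin n) R)
    (hf : f * D = D * f) :
    opL k (D + x • f) (opU k x f X) = opU k x f (opL k D X) := by
  have hf' : Dᵀ * fᵀ = fᵀ * Dᵀ := by rw [← transpose_mul, ← transpose_mul, hf]
  simp only [opU_apply, opL_apply, transpose_add, transpose_smul, transpose_mul,
    transpose_transpose, add_mul, mul_add, smul_add, smul_mul_assoc, mul_smul_comm, smul_smul, hx,
    zero_smul, add_zero, Matrix.mul_assoc, hf']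
  have h1 := add_self_mat h2 (x • (f * X))
  have e : ∀ a b c : Matrix (Fin n) (Fin n) R, a = b + (c + c) → a = b := by
    intro a b c h; rw [h, add_self_mat h2 c, add_zero]
  refine e _ _ (x • (f * X)) ?_
  abel

/-- the kernels of `opL` for `D` and `D + x f` have the same dimension -/
lemma finrank_ker_opL (h2 : (2 : R) = 0) {x : R} (hx : x * x = 0)
    (D f : Matrix (Fin n) (Fin n) R) (hf : f * D = D * f) :
    finrank k (LinearMap.ker (opL k (D + x • f))) = finrank k (LinearMap.ker (opL k D)) := by
  let e : Matrix (Fin n) (Fin n) R ≃ₗ[k] Matrix (Fin n) (Fin n) R :=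
    LinearEquiv.ofLinearMap (opU k x f) (opU k x f)
      (by ext1 X; simpa using opU_opU (k := k) h2 hx f X)
      (by ext1 X; simpa using opU_opU (k := k) h2 hx f X)
  have hcomp : (opL k (D + x • f)) ∘ₗ (e : _ →ₗ[k] _) = (e : _ →ₗ[k] _) ∘ₗ (opL k D) := by
    apply LinearMap.ext
    intro X
    exact opL_opU (k := k) h2 hx D f X hf
  have hk : LinearMap.ker (opL k D) = (LinearMap.ker (opL k (D + x • f))).comap (e : _ →ₗ[k] _) := by
    ext X
    rw [Submodule.mem_comap, LinearMap.mem_ker, LinearMap.mem_ker]
    have := LinearMap.congr_fun hcomp X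
    simp only [LinearMap.comp_apply] at this
    rw [this]
    exact (LinearEquiv.map_eq_zero_iff e).symm
  rw [hk]
  exact (LinearEquiv.finrank_eq (LinearEquiv.submoduleMap e.symm
    (LinearMap.ker (opL k (D + x • f))) |>.trans (LinearEquiv.ofEq _ _ (by
      ext X; simp [Submodule.mem_comap]
      ))))

lemma sq_zero_step (h2 : (2 : R) = 0) {x : R} (hx : x * x = 0)
    (D f : Matrix (Fin n) (Fin n) R) (hD : D * D = 0) (hf : f * D = D * f) :
    (D + x • f) * (D + x • f) = 0 := by
  simp only [add_mul, mul_add, smul_mul_assoc, mul_smul_comm, smul_add, smul_smul, hx, zero_smul,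
    add_zero, hD, hf, zero_add]
  exact add_self_mat h2 _

/-- the kernel of `1 + τ` is large -/
lemma ker_opL_zero (h2 : (2 : R) = 0) [FiniteDimensional k R] :
    finrank k (LinearMap.range (opL k (0 : Matrix (Fin n) (Fin n) R))) + n * finrank k R ≤
      finrank k (LinearMap.ker (opL k (0 : Matrix (Fin n) (Fin n) R))) := by
  have hadd : ∀ a : R, a + a = 0 := fun a => by
    have : a + a = 2 * a := by ring
    rw [this, h2, zero_mul]
  let Dg : (Fin n → R) →ₗ[k] Matrix (Fin n) (Fin n) R :=
    { toFun := fun v => Matrix.diagonal v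
      map_add' := fun v w => by rw [Matrix.diagonal_add]; rfl
      map_smul' := fun c v => by rw [Matrix.diagonal_smul]; rfl }
  let ψ : (LinearMap.range (opL k (0 : Matrix (Fin n) (Fin n) R)) × (Fin n → R)) →ₗ[k]
      Matrix (Fin n) (Fin n) R :=
    (Submodule.subtype _).coprod Dg
  have hψk : ∀ z, ψ z ∈ LinearMap.ker (opL k (0 : Matrix (Fin n) (Fin n) R)) := by
    rintro ⟨⟨w, ⟨Y, rfl⟩⟩, v⟩
    rw [LinearMap.mem_ker]
    ext i j
    simp only [ψ, Dg, LinearMap.coprod_apply, Submodule.subtype_apply, LinearMap.coe_mk,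
      AddHom.coe_mk, opL_apply, zero_mul, transpose_zero, mul_zero, add_zero, zero_add,
      transpose_add, transpose_transpose, Matrix.add_apply, transpose_apply,
      Matrix.diagonal_transpose, Matrix.zero_apply]
    have h1 := hadd (Y i j)
    have h3 := hadd (Y j i)
    have h4 := hadd (Matrix.diagonal v i j)
    linear_combination h1 + h3 + h4
  have hψi : Function.Injective ψ := by
    rw [injective_iff_map_eq_zero]
    rintro ⟨⟨w, ⟨Y, rfl⟩⟩, v⟩ h
    have hv : v = 0 := by
      funext i
      have := congrFun (congrFun h i) i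
      simp only [ψ, Dg, LinearMap.coprod_apply, Submodule.subtype_apply, LinearMap.coe_mk,
        AddHom.coe_mk, opL_apply, zero_mul, transpose_zero, mul_zero, zero_add,
        Matrix.add_apply, transpose_apply, Matrix.diagonal_apply_eq, Matrix.zero_apply] at this
      have h1 := hadd (Y i i)
      rw [h1, zero_add] at this
      simpa using this
    subst hv
    simp only [ψ, Dg, LinearMap.coprod_apply, map_zero, add_zero, Submodule.subtype_apply] at h
    ext1
    · exact Subtype.ext h
    · rfl
  have := LinearMap.finrank_le_finrank_of_injective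
    (f := LinearMap.codRestrict (LinearMap.ker (opL k (0 : Matrix (Fin n) (Fin n) R))) ψ hψk)
    (by
      intro a b hab
      apply hψi
      exact congrArg Subtype.val hab)
  rw [Module.finrank_prod, Module.finrank_pi_fintype, Finset.sum_const, Finset.card_univ,
    Fintype.card_fin, smul_eq_mul] at this
  exact this

section grading

variable (k) (deg : Fin n → ℕ)

/-- matrices supported in degrees at least `m` -/
def Fil (m : ℕ) : Submodule k (Matrix (Fin n) (Fin n) R) where
  carrier := {X | ∀ i j, deg i + deg j < m → X i j = 0}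
  add_mem' := by
    intro X Y hX hY i j h
    rw [Matrix.add_apply, hX i j h, hY i j h, add_zero]
  zero_mem' := by intro i j _; rfl
  smul_mem' := by
    intro c X hX i j h
    rw [Matrix.smul_apply, hX i j h, smul_zero]

/-- projection to degree `m` -/
def prj (m : ℕ) : Matrix (Fin n) (Fin n) R →ₗ[k] Matrix (Fin n) (Fin n) R where
  toFun X := Matrix.of fun i j => if deg i + deg j = m then X i j else 0
  map_add' X Y := by
    ext i j
    simp only [Matrix.of_apply, Matrix.add_apply]
    split_ifs <;> simp
  map_smul' c X := by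
    ext i j
    simp only [Matrix.of_apply, Matrix.smul_apply, RingHom.id_apply]
    split_ifs <;> simp

variable {k deg}

lemma prj_apply (m : ℕ) (X : Matrix (Fin n) (Fin n) R) (i j : Fin n) :
    prj k deg m X i j = if deg i + deg j = m then X i j else 0 := rfl

lemma opT_prj (D : Matrix (Fin n) (Fin n) R) (hdeg : ∀ i j, D i j ≠ 0 → deg j = deg i + 1)
    (m : ℕ) (X : Matrix (Fin n) (Fin n) R) (i j : Fin n) :
    opT k D (prj k deg m X) i j = if deg i + deg j + 1 = m then opT k D X i j else 0 := by
  simp only [opT_apply, Matrix.add_apply, Matrix.mul_apply, transpose_apply, prj_apply]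
  split_ifs with h
  · congr 1
    · refine Finset.sum_congr rfl fun l _ => ?_
      by_cases hl : D i l = 0
      · simp [hl]
      · rw [if_pos (by have := hdeg i l hl; omega)]
    · refine Finset.sum_congr rfl fun l _ => ?_
      by_cases hl : D j l = 0
      · simp [hl]
      · rw [if_pos (by have := hdeg j l hl; omega)]
  · have e1 : ∑ l, D i l * (if deg l + deg j = m then X l j else 0) = 0 := by
      refine Finset.sum_eq_zero fun l _ => ?_
      by_cases hl : D i l = 0
      · simp [hl]
      · rw [if_neg (by have := hdeg i l hl; omega), mul_zero]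
    have e2 : ∑ l, (if deg i + deg l = m then X i l else 0) * D j l = 0 := by
      refine Finset.sum_eq_zero fun l _ => ?_
      by_cases hl : D j l = 0
      · simp [hl]
      · rw [if_neg (by have := hdeg j l hl; omega), zero_mul]
    rw [e1, e2, add_zero]

lemma finrank_split [FiniteDimensional k R] (K : Submodule k (Matrix (Fin n) (Fin n) R))
    (p : Matrix (Fin n) (Fin n) R →ₗ[k] Matrix (Fin n) (Fin n) R) :
    finrank k K = finrank k (K.map p) + finrank k (K ⊓ LinearMap.ker p : Submodule k _) := by
  have h := LinearMap.finrank_range_add_finrank_ker (p.domRestrict K)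
  rw [LinearMap.range_domRestrict] at h
  rw [← h]
  congr 1
  have : LinearMap.ker (p.domRestrict K) = (K ⊓ LinearMap.ker p).comap K.subtype := by
    ext x
    simp
  rw [this]
  exact LinearEquiv.finrank_eq (Submodule.comapSubtypeEquivOfLe inf_le_left)

lemma smith_step [FiniteDimensional k R] (D : Matrix (Fin n) (Fin n) R)
    (hdeg : ∀ i j, D i j ≠ 0 → deg j = deg i + 1) (m : ℕ)
    (ih : finrank k (LinearMap.ker (opL k D) ⊓ Fil k deg (m + 1) : Submodule k _) ≤
      finrank k (LinearMap.ker (opT k D) ⊓ Fil k deg (m + 1) : Submodule k _)) :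
    finrank k (LinearMap.ker (opL k D) ⊓ Fil k deg m : Submodule k _) ≤
      finrank k (LinearMap.ker (opT k D) ⊓ Fil k deg m : Submodule k _) := by
  have hF : (Fil k deg m ⊓ LinearMap.ker (prj k deg m) : Submodule k (Matrix (Fin n) (Fin n) R)) =
      Fil k deg (m + 1) := by
    ext X
    simp only [Submodule.mem_inf, LinearMap.mem_ker]
    constructor
    · rintro ⟨h1, h2⟩ i j hij
      rcases Nat.lt_succ_iff_lt_or_eq.mp hij with h | h
      · exact h1 i j h
      · have := congrFun (congrFun h2 i) j
        rw [prj_apply, if_pos h] at this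
        exact this
    · intro h
      refine ⟨fun i j hij => h i j (by omega), ?_⟩
      ext i j
      rw [prj_apply]
      split_ifs with h1
      · exact h i j (by omega)
      · rfl
  rw [finrank_split (LinearMap.ker (opL k D) ⊓ Fil k deg m) (prj k deg m),
    finrank_split (LinearMap.ker (opT k D) ⊓ Fil k deg m) (prj k deg m), inf_assoc, inf_assoc, hF]
  refine add_le_add (Submodule.finrank_mono ?_) ih
  rintro _ ⟨X, ⟨hX1, hX2⟩, rfl⟩
  refine ⟨prj k deg m X, ⟨?_, ?_⟩, ?_⟩
  · change opT k D (prj k deg m X) = 0
    ext i j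
    rw [opT_prj D hdeg]
    split_ifs with h
    · have h1 := congrFun (congrFun hX1 i) j
      simp only [opL_apply, Matrix.add_apply, transpose_apply, Matrix.zero_apply] at h1
      rw [hX2 i j (by omega), hX2 j i (by omega), add_zero, add_zero] at h1
      simpa using h1
    · rfl
  · intro i j hij
    rw [prj_apply, if_neg (by omega)]
  · ext i j
    rw [prj_apply, prj_apply]
    split_ifs <;> rfl

lemma smith [FiniteDimensional k R] (D : Matrix (Fin n) (Fin n) R)
    (hdeg : ∀ i j, D i j ≠ 0 → deg j = deg i + 1) :
    finrank k (LinearMap.ker (opL k D)) ≤ finrank k (LinearMap.ker (opT k D)) := by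
  have key : ∀ a m : ℕ, (∀ i j : Fin n, deg i + deg j < a + m) →
      finrank k (LinearMap.ker (opL k D) ⊓ Fil k deg m : Submodule k _) ≤
      finrank k (LinearMap.ker (opT k D) ⊓ Fil k deg m : Submodule k _) := by
    intro a
    induction a with
    | zero =>
      intro m hm
      have : (LinearMap.ker (opL k D) ⊓ Fil k deg m : Submodule k (Matrix (Fin n) (Fin n) R)) = ⊥ := by
        rw [eq_bot_iff]
        rintro X ⟨-, hX⟩
        rw [Submodule.mem_bot]
        ext i j
        exact hX i j (by simpa using hm i j)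
      rw [this]
      simp
    | succ a iha =>
      intro m hm
      exact smith_step D hdeg m (iha (m + 1) (fun i j => by have := hm i j; omega))
  have hb : ∃ B : ℕ, ∀ i j : Fin n, deg i + deg j < B := by
    refine ⟨(∑ i, deg i) + (∑ i, deg i) + 1, fun i j => ?_⟩
    have h1 := Finset.single_le_sum (f := deg) (fun _ _ => Nat.zero_le _) (Finset.mem_univ i)
    have h2 := Finset.single_le_sum (f := deg) (fun _ _ => Nat.zero_le _) (Finset.mem_univ j)
    omega
  obtain ⟨B, hB⟩ := hb
  have h0 := key B 0 (by simpa using hB)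
  have hF : (Fil k deg 0 : Submodule k (Matrix (Fin n) (Fin n) R)) = ⊤ := by
    rw [eq_top_iff]
    intro X _ i j h
    exact absurd h (Nat.not_lt_zero _)
  rw [hF, inf_top_eq, inf_top_eq] at h0
  exact h0

end grading

end V11209.Carl
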